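import Mathlib
import Pool.Agent.Z700.Defs3

/-! # Representations of `9 m` by `b² + 14 y²`: rigidity, product formula, total flip -/

set_option autoImplicit false

namespace Pool.Agent.Y259.Z7

open Finset Pool.Agent.Z701
open Pool.Agent.Z700 (pr Sol3)

theorem prime_of {p : ℕ} (h : Sp p ∨ Nr p) : p.Prime := by
  rcases h with h | h
  · exact h.1
  · exact h.1

theorem ne_three {p : ℕ} (h : Sp p ∨ Nr p) : p % 3 = 1 ∨ p % 3 = 2 := by
  have hp := prime_of h
  have h3 : ¬ 3 ∣ p := by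
    intro hd
    have : p = 3 := ((Nat.prime_dvd_prime_iff_eq Nat.prime_three hp).1 hd).symm
    subst this
    rcases h with h | h
    · have := h.2.1
      omega
    · have := h.2.1
      omega
  omega

theorem jac7 {a : ℕ} {r : ℤ} (h : (a : ℤ) % 7 = r) : jacobiSym (a : ℤ) 7 = jacobiSym r 7 := by
  rw [jacobiSym.mod_left]
  norm_num
  rw [h]

theorem jac_sp {a : ℕ} (h : Sp a) : jacobiSym (a : ℤ) 7 = 1 := by
  rcases h.2.2 with h | h | h
  · have h' : (a : ℤ) % 7 = 1 := by omega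
    rw [jac7 h']
    norm_num
  · have h' : (a : ℤ) % 7 = 2 := by omega
    rw [jac7 h']
    norm_num
  · have h' : (a : ℤ) % 7 = 4 := by omega
    rw [jac7 h']
    norm_num

theorem jac_nr {a : ℕ} (h : Nr a) : jacobiSym (a : ℤ) 7 = -1 := by
  rcases h.2.2 with h | h | h
  · have h' : (a : ℤ) % 7 = 3 := by omega
    rw [jac7 h']
    norm_num
  · have h' : (a : ℤ) % 7 = 5 := by omega
    rw [jac7 h']
    norm_num
  · have h' : (a : ℤ) % 7 = 6 := by omega
    rw [jac7 h']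
    norm_num

theorem all_mod (P : Finset ℕ) (hP : ∀ p ∈ P, Sp p ∨ Nr p) :
    (Even (inr P).card → pr P % 8 = 1) ∧ (¬ Even (inr P).card → pr P % 8 = 5) ∧
    (pr P % 3 = 1 ∨ pr P % 3 = 2) ∧ jacobiSym ((pr P : ℕ) : ℤ) 7 = (-1) ^ (inr P).card := by
  classical
  induction P using Finset.induction_on with
  | empty =>
    have h1 : pr ∅ = 1 := by simp [pr]
    have h2 : inr ∅ = ∅ := by simp [inr]
    rw [h1, h2]
    simp
  | insert a s ha ih =>
    obtain ⟨i1, i2, i3, i4⟩ := ih fun p hp => hP p (Finset.mem_insert_of_mem hp)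
    have hA := hP a (Finset.mem_insert_self a s)
    have hpr : pr (insert a s) = a * pr s := by
      unfold pr
      rw [Finset.prod_insert ha]
    have ha3 := ne_three hA
    have h3 : pr (insert a s) % 3 = 1 ∨ pr (insert a s) % 3 = 2 := by
      rw [hpr, Nat.mul_mod]
      rcases ha3 with h | h <;> rcases i3 with h' | h' <;> rw [h, h'] <;> norm_num
    rcases hA with hA | hA
    · have hin : inr (insert a s) = inr s := by
        unfold inr
        rw [Finset.filter_insert, if_neg]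
        have := hA.2.1
        omega
      rw [hin]
      refine ⟨fun h => ?_, fun h => ?_, h3, ?_⟩
      · rw [hpr, Nat.mul_mod, hA.2.1, i1 h]
      · rw [hpr, Nat.mul_mod, hA.2.1, i2 h]
      · rw [hpr]
        push_cast
        rw [jacobiSym.mul_left, jac_sp hA, one_mul]
        exact i4
    · have hin : inr (insert a s) = insert a (inr s) := by
        unfold inr
        rw [Finset.filter_insert, if_pos hA.2.1]
      have hnot : a ∉ inr s := fun h => ha (Finset.mem_filter.1 h).1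
      have hcard : (inr (insert a s)).card = (inr s).card + 1 := by
        rw [hin, Finset.card_insert_of_notMem hnot]
      rw [hcard]
      refine ⟨fun h => ?_, fun h => ?_, h3, ?_⟩
      · have h' : ¬ Even (inr s).card := by
          rw [Nat.even_add_one] at h
          exact h
        rw [hpr, Nat.mul_mod, hA.2.1, i2 h']
      · have h' : Even (inr s).card := by
          rw [Nat.even_add_one, not_not] at h
          exact h
        rw [hpr, Nat.mul_mod, hA.2.1, i1 h']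
      · rw [hpr]
        push_cast
        rw [jacobiSym.mul_left, jac_nr hA, pow_succ]
        rw [show jacobiSym ((pr s : ℕ) : ℤ) 7 = (-1) ^ (inr s).card from i4]
        ring

theorem pr_mod8 {P : Finset ℕ} (hP : Gd P) : pr P % 8 = 1 := (all_mod P hP.1).1 hP.2

theorem pr_mod3 {P : Finset ℕ} (hP : Gd P) : pr P % 3 = 1 ∨ pr P % 3 = 2 :=
  (all_mod P hP.1).2.2.1

theorem pr_jac7 {P : Finset ℕ} (hP : Gd P) : jacobiSym ((pr P : ℕ) : ℤ) 7 = 1 := by
  rw [(all_mod P hP.1).2.2.2, hP.2.neg_one_pow]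

theorem pr_dvd {P : Finset ℕ} (hP : ∀ p ∈ P, p.Prime) {z : ℤ} (h : ∀ p ∈ P, (p : ℤ) ∣ z) :
    (pr P : ℤ) ∣ z := by
  classical
  unfold pr
  rw [Nat.cast_prod]
  refine Finset.prod_dvd_of_coprime ?_ h
  intro p hp q hq hpq
  have h1 : Nat.Coprime p q := (Nat.coprime_primes (hP p hp) (hP q hq)).mpr hpq
  exact Nat.isCoprime_iff_coprime.mpr h1

theorem pr_pos {P : Finset ℕ} (hP : ∀ p ∈ P, p.Prime) : 0 < pr P :=
  Finset.prod_pos fun p hp => (hP p hp).pos

theorem dvd_pr {P : Finset ℕ} {p : ℕ} (hp : p ∈ P) : p ∣ pr P := Finset.dvd_prod_of_mem _ hp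

theorem pr_sq {P : Finset ℕ} (hP : ∀ p ∈ P, p.Prime) : Squarefree (pr P) := by
  unfold pr
  refine Finset.squarefree_prod_of_pairwise_isCoprime ?_ fun p hp => (hP p hp).prime.squarefree
  intro p hp q hq hpq
  exact Nat.coprime_iff_isRelPrime.mp ((Nat.coprime_primes (hP p hp) (hP q hq)).mpr hpq)

theorem coprime_by {P : Finset ℕ} (hP : ∀ p ∈ P, p.Prime) {b y : ℤ}
    (h : 9 * (pr P : ℤ) = b ^ 2 + 14 * y ^ 2) (h3 : ¬ (3 : ℤ) ∣ b) : IsCoprime b y := by
  rw [Int.isCoprime_iff_gcd_eq_one]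
  by_contra hg
  obtain ⟨r, hr, hrg⟩ := Nat.exists_prime_and_dvd hg
  have hrb : (r : ℤ) ∣ b := (Int.natCast_dvd_natCast.mpr hrg).trans (Int.gcd_dvd_left ..)
  have hry : (r : ℤ) ∣ y := (Int.natCast_dvd_natCast.mpr hrg).trans (Int.gcd_dvd_right ..)
  have h2 : (r : ℤ) ^ 2 ∣ 9 * (pr P : ℤ) := by
    rw [h]
    exact dvd_add (pow_dvd_pow_of_dvd hrb 2) (Dvd.dvd.mul_left (pow_dvd_pow_of_dvd hry 2) _)
  have h4 : r ^ 2 ∣ 9 * pr P := by exact_mod_cast h2
  have hr3 : r ≠ 3 := by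
    rintro rfl
    exact h3 (by exact_mod_cast hrb)
  have h5 : Nat.Coprime (r ^ 2) 9 := by
    have : Nat.Coprime r 3 := (Nat.coprime_primes hr Nat.prime_three).mpr hr3
    have h9 : (9 : ℕ) = 3 ^ 2 := by norm_num
    rw [h9]
    exact Nat.Coprime.pow _ _ this
  have h6 : r ^ 2 ∣ pr P := h5.dvd_of_dvd_mul_left h4
  have h7 : r * r ∣ pr P := by rwa [← pow_two]
  have h8 := pr_sq hP r h7
  exact hr.one_lt.ne' (Nat.isUnit_iff.mp h8)

theorem t_SOLC : S_SOLC := by
  rintro P hG ⟨b, y⟩ ⟨hq, hb4, hb3, hyb⟩ ⟨b', y'⟩ ⟨hq', hb4', hb3', hyb'⟩ hdiv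
  have hP : ∀ p ∈ P, p.Prime := fun p hp => prime_of (hG.1 p hp)
  simp only at hq hb4 hb3 hyb hq' hb4' hb3' hyb' hdiv
  have hm := pr_dvd hP hdiv
  have hmpos : (0 : ℤ) < pr P := by exact_mod_cast pr_pos hP
  have hmod := pr_mod3 hG
  have h9 : (9 : ℤ) ∣ b * y' - b' * y := by
    have h1 : (9 : ℤ) ∣ (b * y' + b' * y) * (b * y' - b' * y) :=
      ⟨(pr P : ℤ) * (y' ^ 2 - y ^ 2), by linear_combination (-(y' ^ 2)) * hq + y ^ 2 * hq'⟩
    have h2 : ¬ (3 : ℤ) ∣ b * y' + b' * y := by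
      intro h
      have h3 : (3 : ℤ) ∣ 2 * (b * b') := by
        have h4 : 2 * (b * b') = (b * y' + b' * y) - b * (y' - b') - b' * (y - b) := by ring
        rw [h4]
        exact dvd_sub (dvd_sub h (Dvd.dvd.mul_left hyb' _)) (Dvd.dvd.mul_left hyb _)
      rcases Int.prime_three.dvd_or_dvd h3 with h5 | h5
      · norm_num at h5
      · rcases Int.prime_three.dvd_or_dvd h5 with h6 | h6
        · exact hb3 h6
        · exact hb3' h6
    have h3 : IsCoprime (9 : ℤ) (b * y' + b' * y) := by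
      have : IsCoprime (3 : ℤ) (b * y' + b' * y) :=
        (Int.prime_three.coprime_iff_not_dvd).mpr h2
      have h9 : (9 : ℤ) = 3 ^ 2 := by norm_num
      rw [h9]
      exact this.pow_left
    exact h3.dvd_of_dvd_mul_left h1
  have hcop : IsCoprime (9 : ℤ) (pr P : ℤ) := by
    have h1 : Nat.Coprime 9 (pr P) := by
      have h2 : Nat.Coprime 3 (pr P) := by
        rw [Nat.Prime.coprime_iff_not_dvd Nat.prime_three]
        omega
      have h9 : (9 : ℕ) = 3 ^ 2 := by norm_num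
      rw [h9]
      exact h2.pow_left _
    exact_mod_cast Nat.isCoprime_iff_coprime.mpr h1
  have hall : 9 * (pr P : ℤ) ∣ b * y' - b' * y := hcop.mul_dvd h9 hm
  have hid : (b * b' + 14 * y * y') ^ 2 + 14 * (b * y' - b' * y) ^ 2 = (9 * (pr P : ℤ)) ^ 2 := by
    have : (9 * (pr P : ℤ)) ^ 2 = (b ^ 2 + 14 * y ^ 2) * (b' ^ 2 + 14 * y' ^ 2) := by
      rw [← hq, ← hq']
      ring
    rw [this]
    ring
  have hW : b * y' - b' * y = 0 := by
    by_contra hne
    obtain ⟨c, hc⟩ := hall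
    have hc0 : c ≠ 0 := by
      rintro rfl
      exact hne (by rw [hc]; ring)
    have hc1 : 1 ≤ c ^ 2 := by
      have := sq_pos_of_ne_zero hc0 |>.le
      have h2 : 0 < c ^ 2 := by positivity
      omega
    rw [hc] at hid
    nlinarith [sq_nonneg (b * b' + 14 * y * y'), mul_pos hmpos hmpos,
      mul_le_mul_of_nonneg_left hc1 (by positivity : (0:ℤ) ≤ (9 * (pr P : ℤ)) ^ 2)]
  have hy0 : ¬ (3 : ℤ) ∣ y := fun h => hb3 (by
    have : b = y - (y - b) := by ring
    rw [this]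
    exact dvd_sub h hyb)
  have hy1 : y ≠ 0 := by
    rintro rfl
    exact hy0 (dvd_zero _)
  have h2 : y' ^ 2 = y ^ 2 := by
    have h3 : 9 * (pr P : ℤ) * (y' ^ 2 - y ^ 2) = 0 := by
      have : 9 * (pr P : ℤ) * (y' ^ 2 - y ^ 2) = (b * y' + b' * y) * (b * y' - b' * y) := by
        linear_combination (y' ^ 2) * hq - y ^ 2 * hq'
      rw [this, hW, mul_zero]
    rcases mul_eq_zero.mp h3 with h4 | h4
    · exfalso
      have : (9 : ℤ) * (pr P : ℤ) > 0 := by positivity
      omega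
    · linarith
  rcases sq_eq_sq_iff_eq_or_eq_neg.mp h2 with h3 | h3
  · subst h3
    have h4 : (b - b') * y' = 0 := by linear_combination hW
    rcases mul_eq_zero.mp h4 with h5 | h5
    · have : b = b' := by linarith
      rw [this]
    · exact absurd h5 hy1
  · subst h3
    have h4 : (b + b') * y = 0 := by linear_combination -hW
    rcases mul_eq_zero.mp h4 with h5 | h5
    · exfalso
      omega
    · exact absurd h5 hy1

theorem prod_jacobi {P : Finset ℕ} (hP : ∀ p ∈ P, p.Prime) (y : ℤ) :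
    ∏ p ∈ P, jacobiSym y p = jacobiSym y (pr P) := by
  classical
  unfold pr
  induction P using Finset.induction_on with
  | empty => simp
  | insert a s ha ih =>
    have hs : ∀ p ∈ s, p.Prime := fun p hp => hP p (Finset.mem_insert_of_mem hp)
    have hap : 0 < a := (hP a (Finset.mem_insert_self a s)).pos
    have hsp : 0 < ∏ p ∈ s, p := Finset.prod_pos fun p hp => (hs p hp).pos
    haveI : NeZero a := ⟨hap.ne'⟩
    haveI : NeZero (∏ p ∈ s, p) := ⟨hsp.ne'⟩
    rw [Finset.prod_insert ha, Finset.prod_insert ha, jacobiSym.mul_right, ih hs]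

theorem t_SOLP : S_SOLP := by
  classical
  rintro P hG ⟨b, y⟩ ⟨hq, hb4, hb3, hyb⟩
  have hP : ∀ p ∈ P, p.Prime := fun p hp => prime_of (hG.1 p hp)
  simp only at hq hb4 hb3 hyb ⊢
  have hcop := coprime_by hP hq hb3
  have hm8 : pr P % 8 = 1 := pr_mod8 hG
  have hpy : ∀ p ∈ P, ¬ (p : ℤ) ∣ y := by
    intro p hp hd
    have hpb : (p : ℤ) ∣ b ^ 2 := by
      have h1 : b ^ 2 = 9 * (pr P : ℤ) - 14 * y ^ 2 := by linarith
      rw [h1]
      refine dvd_sub (Dvd.dvd.mul_left (by exact_mod_cast dvd_pr hp) _) ?_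
      exact Dvd.dvd.mul_left (dvd_pow hd two_ne_zero) _
    have hpp : Prime (p : ℤ) := Nat.prime_iff_prime_int.mp (hP p hp)
    exact hpp.not_unit (hcop.isUnit_of_dvd' (hpp.dvd_of_dvd_pow hpb) hd)
  refine ⟨fun p hp => ?_, ?_⟩
  · apply jacobiSym.eq_one_or_neg_one
    rw [Int.gcd_comm, ← Int.isCoprime_iff_gcd_eq_one]
    have hpp : Prime (p : ℤ) := Nat.prime_iff_prime_int.mp (hP p hp)
    exact (hpp.coprime_iff_not_dvd).mpr (hpy p hp)
  · rw [prod_jacobi hP]
    have hm1 : pr P % 4 = 1 := by omega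
    have hmodd : Odd (pr P) := by
      rw [Nat.odd_iff]
      omega
    have hneg : jacobiSym (-1) (pr P) = 1 := by
      rw [jacobiSym.at_neg_one hmodd, ZMod.χ₄_nat_one_mod_four hm1]
    have htwo : jacobiSym 2 (pr P) = 1 := by
      rw [jacobiSym.at_two hmodd, ZMod.χ₈_nat_eq_if_mod_eight]
      simp [hm8]
      omega
    have hy0 : y ≠ 0 := by
      rintro rfl
      apply hb3
      have : b = -(0 - b) := by ring
      rw [this]
      exact (dvd_neg).mpr hyb
    -- reduce to the absolute value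
    have habs : jacobiSym y (pr P) = jacobiSym (y.natAbs : ℤ) (pr P) := by
      rcases Int.natAbs_eq y with h | h
      · rw [← h]
      · conv_lhs => rw [h]
        rw [← neg_one_mul, jacobiSym.mul_left, hneg, one_mul]
    obtain ⟨i, o, hodd, ho⟩ := Nat.exists_eq_two_pow_mul_odd (Int.natAbs_ne_zero.mpr hy0)
    rw [habs, ho]
    push_cast
    rw [jacobiSym.mul_left, jacobiSym.pow_left, htwo, one_pow, one_mul]
    rw [← jacobiSym.quadratic_reciprocity_one_mod_four hm1 hodd]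
    have hoy : (o : ℤ) ∣ y := Int.natCast_dvd.mpr ⟨2 ^ i, by rw [ho]; ring⟩
    have hbo : IsCoprime b (o : ℤ) := hcop.of_isCoprime_of_dvd_right hoy
    have h3o : IsCoprime (3 : ℤ) (o : ℤ) := by
      rw [Int.prime_three.coprime_iff_not_dvd]
      intro h
      have h1 : (3 : ℤ) ∣ y := h.trans hoy
      apply hb3
      have : b = y - (y - b) := by ring
      rw [this]
      exact dvd_sub h1 hyb
    have e1 : jacobiSym (9 * (pr P : ℤ)) o = jacobiSym (b ^ 2) o := by
      apply jacobiSym.mod_left'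
      apply Int.emod_emod_of_dvd _ (dvd_refl _) |>.symm.trans
      rw [hq]
      rw [Int.emod_emod_of_dvd _ (dvd_refl _)]
      obtain ⟨t, ht⟩ := hoy
      rw [show b ^ 2 + 14 * y ^ 2 = b ^ 2 + (o : ℤ) * (14 * t * y) by rw [pow_two y]; nth_rw 1 [ht]; ring]
      exact Int.add_mul_emod_self_left _ _ _
    have e2 : jacobiSym (b ^ 2) o = 1 := by
      rw [jacobiSym.sq_one' (Int.isCoprime_iff_gcd_eq_one.mp hbo)]
    have e3 : jacobiSym 9 o = 1 := by
      have : (9 : ℤ) = 3 ^ 2 := by norm_num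
      rw [this]
      exact jacobiSym.sq_one' (Int.isCoprime_iff_gcd_eq_one.mp h3o)
    rw [jacobiSym.mul_left, e3, one_mul, e2] at e1
    exact e1

theorem y_even {m b y : ℤ} (hm : m % 8 = 1) (h : 9 * m = b ^ 2 + 14 * y ^ 2) (hb : b % 4 = 1) :
    y % 2 = 0 := by
  by_contra hy
  have hy1 : y % 2 = 1 := by omega
  obtain ⟨k, hk⟩ : ∃ k, y = 2 * k + 1 := ⟨y / 2, by omega⟩
  obtain ⟨l, hl⟩ : ∃ l, b = 4 * l + 1 := ⟨b / 4, by omega⟩
  subst hk hl
  have e : 9 * m = 8 * (2 * l ^ 2 + l + 7 * (k ^ 2 + k) + 1) + 7 := by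
    rw [h]
    ring
  generalize 2 * l ^ 2 + l + 7 * (k ^ 2 + k) + 1 = t at e
  omega

theorem t_SOLT : S_SOLT := by
  rintro P hG hne ⟨b, y⟩ ⟨hq, hb4, hb3, hyb⟩ ⟨b', y'⟩ ⟨hq', hb4', hb3', hyb'⟩ hdiv
  have hP : ∀ p ∈ P, p.Prime := fun p hp => prime_of (hG.1 p hp)
  simp only at hq hb4 hb3 hyb hq' hb4' hb3' hyb' hdiv ⊢
  obtain ⟨Y, hY⟩ := pr_dvd hP hdiv
  have hmpos : (0 : ℤ) < pr P := by exact_mod_cast pr_pos hP
  have hm8 : pr P % 8 = 1 := pr_mod8 hG
  have hm8' : (pr P : ℤ) % 8 = 1 := by exact_mod_cast hm8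
  have hj := pr_jac7 hG
  obtain ⟨m, hm⟩ : ∃ m : ℤ, m = pr P := ⟨_, rfl⟩
  rw [← hm] at hq hq' hY hmpos hm8' hj
  have hid : (b * b' - 14 * y * y') ^ 2 + 14 * (b * y' + b' * y) ^ 2 = (9 * m) ^ 2 := by
    have : (9 * m) ^ 2 = (b ^ 2 + 14 * y ^ 2) * (b' ^ 2 + 14 * y' ^ 2) := by
      rw [← hq, ← hq']
      ring
    rw [this]
    ring
  have hX : m ∣ b * b' - 14 * y * y' := by
    have h1 : m ^ 2 ∣ (b * b' - 14 * y * y') ^ 2 := by
      refine ⟨81 - 14 * Y ^ 2, ?_⟩
      rw [hY] at hid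
      linear_combination hid
    exact (Int.pow_dvd_pow_iff two_ne_zero).1 h1
  obtain ⟨X, hX⟩ := hX
  have hXY : X ^ 2 + 14 * Y ^ 2 = 81 := by
    rw [hX, hY] at hid
    have h1 : m ^ 2 * (X ^ 2 + 14 * Y ^ 2) = m ^ 2 * 81 := by linear_combination hid
    exact mul_left_cancel₀ (by positivity) h1
  have hY3 : ¬ (3 : ℤ) ∣ Y := by
    intro h
    have h0 : (3 : ℤ) ∣ b * y' + b' * y := by
      rw [hY]
      exact Dvd.dvd.mul_left h _
    have h3 : (3 : ℤ) ∣ 2 * (b * b') := by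
      have h4 : 2 * (b * b') = (b * y' + b' * y) - b * (y' - b') - b' * (y - b) := by ring
      rw [h4]
      exact dvd_sub (dvd_sub h0 (Dvd.dvd.mul_left hyb' _)) (Dvd.dvd.mul_left hyb _)
    rcases Int.prime_three.dvd_or_dvd h3 with h5 | h5
    · norm_num at h5
    · rcases Int.prime_three.dvd_or_dvd h5 with h6 | h6
      · exact hb3 h6
      · exact hb3' h6
  have hX5 : X = 5 ∨ X = -5 := by
    have hYb : Y ≤ 2 := by nlinarith [sq_nonneg X]
    have hYb' : -2 ≤ Y := by nlinarith [sq_nonneg X]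
    have hXb : X ≤ 9 := by nlinarith [sq_nonneg Y]
    have hXb' : -9 ≤ X := by nlinarith [sq_nonneg Y]
    interval_cases Y
    · interval_cases X <;> omega
    · interval_cases X <;> omega
    · exact absurd (dvd_zero _) hY3
    · interval_cases X <;> omega
    · interval_cases X <;> omega
  have hye := y_even hm8' hq hb4
  have hX1 : X = 5 := by
    rcases hX5 with h | h
    · exact h
    · exfalso
      obtain ⟨k, hk⟩ : ∃ k, y = 2 * k := ⟨y / 2, by omega⟩
      obtain ⟨l, hl⟩ : ∃ l, b = 4 * l + 1 := ⟨b / 4, by omega⟩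
      obtain ⟨l', hl'⟩ : ∃ l', b' = 4 * l' + 1 := ⟨b' / 4, by omega⟩
      obtain ⟨n, hn⟩ : ∃ n, m = 8 * n + 1 := ⟨m / 8, by omega⟩
      subst hk hl hl' hn h
      have e : 4 * (4 * l * l' + l + l' - 7 * k * y' + 10 * n) + 6 = 0 := by
        linear_combination hX
      generalize 4 * l * l' + l + l' - 7 * k * y' + 10 * n = t at e
      omega
  -- modulo 7
  have h7 : (b * b') % 7 = (5 * m) % 7 := by
    have : b * b' = 5 * m + 7 * (2 * y * y') := by
      rw [hX1] at hX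
      linear_combination hX
    rw [this]
    exact Int.add_mul_emod_self_left _ _ _
  have h8 : jacobiSym (b * b') 7 = jacobiSym (5 * m) 7 := jacobiSym.mod_left' h7
  rw [jacobiSym.mul_left, jacobiSym.mul_left, hj, mul_one] at h8
  have h5 : jacobiSym 5 7 = -1 := by norm_num
  rw [h5] at h8
  have t1 : jacobiSym b 7 = 0 ∨ jacobiSym b 7 = 1 ∨ jacobiSym b 7 = -1 := jacobiSym.trichotomy b 7
  rcases t1 with t | t | t
  · rw [t] at h8
    norm_num at h8
  · rw [t] at h8 ⊢
    linarith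
  · rw [t] at h8 ⊢
    linarith

end Pool.Agent.Y259.Z7
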